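import Pool.Agent.H48.OC.Core

/-!
# OC, general linear form: the free part is full given the cells
-/

set_option autoImplicit false

namespace Pool.OCG

open Finset Real
open Pool.Agent.H49.Ent Pool.Agent.H32.Dense Pool.STK Pool.KAF Pool.OCT

theorem sum_range_mul (f : ℕ → ℝ) (K : ℕ) : ∀ M : ℕ,
    ∑ s ∈ range (M * K), f s = ∑ r ∈ range K, ∑ j ∈ range M, f (r + j * K) := by
  intro M
  induction M with
  | zero => simp
  | succ M ih =>
    rw [Nat.succ_mul, Finset.sum_range_add, ih]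
    simp only [Finset.sum_range_succ]
    rw [Finset.sum_add_distrib]
    congr 1
    exact Finset.sum_congr rfl fun r _ => by rw [add_comm]

/-- The conditional entropy as a mean over the values of the context. -/
theorem CH_eq_Ex {Ω S T : Type} [Fintype Ω] {p : Ω → ℝ} (hp : ∀ ω, 0 ≤ p ω) (X : Ω → S)
    (G : Ω → T) : CH p X G = Ex p (fun ω => H (cond p G (G ω)) X) := by
  classical
  rw [CH_eq_sum hp]
  unfold Ex
  rw [sum_mul_eq_sum_image p G (fun g => H (cond p G g) X)]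

theorem CH_pair_eq_Ex {Ω S T U : Type} [Fintype Ω] {p : Ω → ℝ} (hp : ∀ ω, 0 ≤ p ω) (X : Ω → S)
    (Y : Ω → U) (G : Ω → T) :
    CH p X (fun ω => (Y ω, G ω)) = Ex p (fun ω => CH (cond p G (G ω)) X Y) := by
  classical
  rw [CH_split hp]
  unfold Ex
  rw [sum_mul_eq_sum_image p G (fun g => CH (cond p G g) X Y)]

namespace Dat

variable {k n : ℕ} {Ω P Λ : Type} [Fintype Ω] (d : Dat k n Ω P Λ)

/-- At the cell `s` of `ω` there are `n` small forms which are atomic and span. -/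
def Good (B : ℝ) (k₁ : ℕ) (e' : ℝ) (s : ℕ) (ω : Ω) : Prop :=
  ∃ q : Fin n → P, d.Bd B q ∧ (∀ j, ‖d.x (q j)‖ ≤ 2 / 2 ^ d.m) ∧ ∀ j, d.At k₁ e' s s (q j) ω

theorem Ex_def (hp : IsLaw d.p) (a s : ℕ) :
    Ex d.p (d.def' a s) = k * a - CH d.p (d.Y (s + a)) (d.G s) / Real.log 2 := by
  rw [CH_eq_Ex hp.nonneg]
  have h1 : d.def' a s = fun ω => (k * a : ℝ) - (Real.log 2)⁻¹ * d.h a s ω := by
    funext ω
    unfold def'
    rw [div_eq_inv_mul]
  rw [h1]
  rw [Ex_sub, Ex_const hp.sum_one, Ex_smul, div_eq_inv_mul]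
  rfl

/-- One step. -/
theorem step (hp : IsLaw d.p) {B : ℝ} (hB0 : 0 ≤ B) {K k₁ : ℕ} (hK : K ≤ k₁) {e' : ℝ}
    (he' : 0 ≤ e') (s : ℕ) :
    CH d.p (d.C (s + K)) (fun ω => ((d.lab ω, d.Y (s + K) ω), d.G s ω)) ≤
      (n * (Real.log 2 + Real.log (2 * n * B + 4 * n * B * k + 2)) +
        n * (n * e') * (K * Real.log 2)) +
      Pr d.p {ω | ¬ d.Good B k₁ e' s ω} * (n * (K * Real.log 2)) := by
  classical
  have h1 : CH d.p (d.C (s + K)) (fun ω => ((d.lab ω, d.Y (s + K) ω), d.G s ω)) ≤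
      CH d.p (d.C (s + K)) (fun ω => (d.Y (s + K) ω, d.G s ω)) := by
    refine CH_mono_cond hp.nonneg ?_
    intro ω ω' _ _ h
    simp only [Prod.mk.injEq] at h ⊢
    exact ⟨h.1.2, h.2⟩
  refine h1.trans ?_
  rw [CH_pair_eq_Ex hp.nonneg]
  set A₁ := n * (Real.log 2 + Real.log (2 * n * B + 4 * n * B * k + 2)) +
        n * (n * e') * (K * Real.log 2) with hA₁
  have hA0 : 0 ≤ A₁ := by
    have e1 : 0 ≤ Real.log (2 * n * B + 4 * n * B * k + 2) := Real.log_nonneg (by
      have : 0 ≤ 2 * n * B + 4 * n * B * k := by positivity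
      linarith)
    positivity
  have h2 : Ex d.p (fun ω => CH (cond d.p (d.G s) (d.G s ω)) (d.C (s + K)) (d.Y (s + K))) ≤
      Ex d.p (fun ω => A₁ + (if ω ∈ {ω | ¬ d.Good B k₁ e' s ω} then n * (K * Real.log 2)
        else 0)) := by
    refine Ex_mono hp.nonneg fun ω hω => ?_
    by_cases hg : d.Good B k₁ e' s ω
    · rw [if_neg (show ω ∉ {ω | ¬ d.Good B k₁ e' s ω} from fun h => h hg), add_zero]
      obtain ⟨q, hq1, hq2, hq3⟩ := hg
      exact d.step_good hp hB0 hK hω hq1 hq2 hq3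
    · rw [if_pos (show ω ∈ {ω | ¬ d.Good B k₁ e' s ω} from hg)]
      have := d.step_triv hp K s hω
      linarith
  refine h2.trans (le_of_eq ?_)
  rw [Ex_add, Ex_const hp.sum_one, Pool.KAF.Pr_eq]
  congr 1
  unfold Ex
  rw [Finset.sum_mul]
  refine Finset.sum_congr rfl fun ω _ => ?_
  by_cases h1 : ω ∈ {ω | ¬ d.Good B k₁ e' s ω}
  · simp only [if_pos h1]
  · simp only [if_neg h1]
    ring

/-- The start of the telescope. -/
theorem start (hp : IsLaw d.p) (hc : ∀ ω j, |d.c ω j| ≤ 1) {U : Type} (r : ℕ) (W : Ω → U) :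
    CH d.p (d.C r) W ≤ n * ((d.m + r + 2) * Real.log 2) := by
  classical
  refine (Pool.STK.Q22.CH_pi hp.nonneg W n (d.C r)).trans ?_
  have key : ∀ a : Fin n, CH d.p (fun ω => d.C r ω a) W ≤ (d.m + r + 2) * Real.log 2 := by
    intro a
    have h1 := CH_le_card hp.nonneg hp.sum_one (fun ω => d.C r ω a) W
      (fun _ => Finset.Icc (-2 ^ (d.m + r)) (2 ^ (d.m + r))) (by
        intro ω _
        rw [Finset.mem_Icc]
        have e1 := abs_le.1 (hc ω a)
        have hpos : (0 : ℝ) < 2 ^ (d.m + r) := by positivity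
        show -2 ^ (d.m + r) ≤ ⌊(2 : ℝ) ^ (d.m + r) * d.c ω a⌋ ∧
          ⌊(2 : ℝ) ^ (d.m + r) * d.c ω a⌋ ≤ 2 ^ (d.m + r)
        constructor
        · rw [Int.le_floor]
          push_cast
          nlinarith
        · have e2 : ((⌊(2 : ℝ) ^ (d.m + r) * d.c ω a⌋ : ℤ) : ℝ) ≤ ((2 ^ (d.m + r) : ℤ) : ℝ) := by
            refine (Int.floor_le _).trans ?_
            push_cast
            nlinarith
          exact_mod_cast e2)
    refine h1.trans ?_
    rw [Ex_const hp.sum_one]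
    have e1 : (((Finset.Icc (-2 ^ (d.m + r)) (2 ^ (d.m + r) : ℤ)).card : ℕ) : ℝ) ≤
        2 ^ (d.m + r + 2) := by
      rw [Int.card_Icc]
      have e2 : (2 ^ (d.m + r) + 1 - -2 ^ (d.m + r) : ℤ) = ((2 * 2 ^ (d.m + r) + 1 : ℕ) : ℤ) := by
        push_cast; ring
      rw [e2, Int.toNat_natCast]
      have e3 : 2 * 2 ^ (d.m + r) + 1 ≤ 2 ^ (d.m + r + 2) := by
        rw [pow_add _ (d.m + r) 2]
        have : 1 ≤ 2 ^ (d.m + r) := Nat.one_le_two_pow
        omega
      exact_mod_cast e3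
    have e4 : (0 : ℝ) < (((Finset.Icc (-2 ^ (d.m + r)) (2 ^ (d.m + r) : ℤ)).card : ℕ) : ℝ) := by
      have : 0 < (Finset.Icc (-2 ^ (d.m + r)) (2 ^ (d.m + r) : ℤ)).card :=
        Finset.card_pos.2 ⟨0, by
          rw [Finset.mem_Icc]
          constructor <;> [exact neg_nonpos.2 (by positivity); positivity]⟩
      exact_mod_cast this
    refine (Real.log_le_log e4 e1).trans (le_of_eq ?_)
    rw [Real.log_pow]
    push_cast
    ring
  refine (Finset.sum_le_sum fun a _ => key a).trans (le_of_eq ?_)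
  rw [Finset.sum_const, nsmul_eq_mul, Finset.card_univ, Fintype.card_fin]

/-- **The free part is full given the cells**, on average. -/
theorem telescope (hp : IsLaw d.p) (hc : ∀ ω j, |d.c ω j| ≤ 1) {B : ℝ} (hB0 : 0 ≤ B)
    {K k₁ : ℕ} (hK : K ≤ k₁) {e' : ℝ} (he' : 0 ≤ e') {X : ℕ} {io : ℝ}
    (hfull : ∀ r M, r ≤ M → M ≤ X → (k * ((M : ℝ) - r) - io) * Real.log 2 ≤
      CH d.p (d.Y M) (fun ω => (d.lab ω, d.Y r ω))) (M : ℕ) (hX : M * K + K ≤ X) :
    ∑ s ∈ range (M * K), Ex d.p (d.def' K s) ≤ K * (io + n * (d.m + K + 2)) +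
      (M * K) * (n * (1 + Real.log (2 * n * B + 4 * n * B * k + 2) / Real.log 2) +
        n * (n * e') * K) + n * K * ∑ s ∈ range (M * K), Pr d.p {ω | ¬ d.Good B k₁ e' s ω} := by
  have hl2 : 0 < Real.log 2 := Real.log_pos (by norm_num)
  set A₁ := n * (Real.log 2 + Real.log (2 * n * B + 4 * n * B * k + 2)) +
        n * (n * e') * (K * Real.log 2) with hA₁
  have key : ∀ r ∈ range K, ∑ j ∈ range M, Ex d.p (d.def' K (r + j * K)) ≤
      (io + n * (d.m + K + 2)) + ∑ j ∈ range M, (A₁ / Real.log 2 +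
        Pr d.p {ω | ¬ d.Good B k₁ e' (r + j * K) ω} * (n * K)) := by
    intro r hr
    have hrK : r < K := mem_range.1 hr
    have e1 := tel (p := d.p) hp.nonneg (α := fun _ => Λ × (Fin k → ℤ)) (β := fun _ => Fin n → ℤ)
      (fun j ω => (d.lab ω, d.Y (r + j * K) ω)) (fun j ω => d.C (r + j * K) ω) M
      (fun j => A₁ + Pr d.p {ω | ¬ d.Good B k₁ e' (r + j * K) ω} * (n * (K * Real.log 2)))
      (by
        intro j _
        have e2 := d.step hp hB0 hK he' (r + j * K)
        have e3 : r + (j + 1) * K = r + j * K + K := by ring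
        simp only [e3]
        exact e2)
    have e2 : (k * (((r + M * K : ℕ) : ℝ) - r) - io) * Real.log 2 ≤
        CH d.p (fun ω => (d.lab ω, d.Y (r + M * K) ω)) (fun ω => (d.lab ω, d.Y (r + 0 * K) ω)) := by
      have e3 := hfull r (r + M * K) (by omega) (by omega)
      refine e3.trans ?_
      have e4 : r + 0 * K = r := by ring
      rw [e4]
      refine CH_mono_left hp.nonneg ?_
      intro ω ω' _ _ h
      simp only [Prod.mk.injEq] at h
      exact h.1.2
    have e3 := d.start hp hc (r + 0 * K) (fun ω => (d.lab ω, d.Y (r + 0 * K) ω))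
    have e4 : ∀ j ∈ range M, CH d.p (fun ω => (d.lab ω, d.Y (r + (j + 1) * K) ω))
        (fun ω => ((d.lab ω, d.Y (r + j * K) ω), d.C (r + j * K) ω)) =
        Real.log 2 * (k * K - Ex d.p (d.def' K (r + j * K))) := by
      intro j _
      rw [d.Ex_def hp]
      have e5 : r + (j + 1) * K = r + j * K + K := by ring
      rw [e5]
      have e6 : CH d.p (fun ω => (d.lab ω, d.Y (r + j * K + K) ω))
          (fun ω => ((d.lab ω, d.Y (r + j * K) ω), d.C (r + j * K) ω)) =
          CH d.p (d.Y (r + j * K + K)) (d.G (r + j * K)) := by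
        refine CH_congr hp.nonneg ?_ ?_ (fun _ _ _ _ h => h) (fun _ _ _ _ h => h)
        · intro ω ω' _ _ h
          simp only [Prod.mk.injEq] at h
          exact h.1.2
        · intro ω ω' _ _ h
          unfold G at h
          simp only [Prod.mk.injEq] at h ⊢
          exact ⟨h.2.1.1, h.1⟩
      rw [e6]
      field_simp
      ring
    rw [Finset.sum_congr rfl e4, ← Finset.mul_sum, Finset.sum_sub_distrib, Finset.sum_const,
      card_range, nsmul_eq_mul] at e1
    have e5 : ∑ j ∈ range M, (A₁ + Pr d.p {ω | ¬ d.Good B k₁ e' (r + j * K) ω} *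
        (n * (K * Real.log 2))) = Real.log 2 * ∑ j ∈ range M, (A₁ / Real.log 2 +
        Pr d.p {ω | ¬ d.Good B k₁ e' (r + j * K) ω} * (n * K)) := by
      rw [Finset.mul_sum]
      refine Finset.sum_congr rfl fun j _ => ?_
      field_simp
    rw [e5] at e1
    push_cast at e2 e3
    have e6 : (n : ℝ) * ((d.m + (r + 0 * K) + 2) * Real.log 2) ≤
        Real.log 2 * (n * (d.m + K + 2)) := by
      have e7 : (r : ℝ) ≤ K := by exact_mod_cast hrK.le
      have e8 : (n : ℝ) * (d.m + (r + 0 * K) + 2) ≤ n * (d.m + K + 2) :=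
        mul_le_mul_of_nonneg_left (by linarith) (Nat.cast_nonneg n)
      nlinarith
    set S := ∑ j ∈ range M, Ex d.p (d.def' K (r + j * K)) with hS
    set T := ∑ j ∈ range M, (A₁ / Real.log 2 +
        Pr d.p {ω | ¬ d.Good B k₁ e' (r + j * K) ω} * (n * K)) with hT
    have e9 : Real.log 2 * (k * (M * K) - io) ≤ Real.log 2 * (n * (d.m + K + 2) + T +
        (M * (k * K) - S)) := by
      have : (k * ((r + M * K : ℝ) - r) - io) * Real.log 2 =
          Real.log 2 * (k * (M * K) - io) := by ring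
      rw [this] at e2
      linarith
    have e10 := le_of_mul_le_mul_left e9 hl2
    linarith
  rw [sum_range_mul]
  refine (Finset.sum_le_sum key).trans (le_of_eq ?_)
  rw [Finset.sum_add_distrib, Finset.sum_const, card_range, nsmul_eq_mul,
    sum_range_mul (fun s => Pr d.p {ω | ¬ d.Good B k₁ e' s ω})]
  have e1 : ∑ r ∈ range K, ∑ j ∈ range M, (A₁ / Real.log 2 +
        Pr d.p {ω | ¬ d.Good B k₁ e' (r + j * K) ω} * (n * K)) =
      (K * M) * (A₁ / Real.log 2) + (n * K) * ∑ r ∈ range K, ∑ j ∈ range M,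
        Pr d.p {ω | ¬ d.Good B k₁ e' (r + j * K) ω} := by
    simp only [Finset.sum_add_distrib, Finset.sum_const, card_range, nsmul_eq_mul,
      ← Finset.sum_mul]
    ring
  rw [e1]
  have e2 : A₁ / Real.log 2 = n * (1 + Real.log (2 * n * B + 4 * n * B * k + 2) / Real.log 2) +
        n * (n * e') * K := by
    rw [hA₁]
    field_simp
  rw [e2]
  ring

end Dat

end Pool.OCG
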