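import Pool.Agent.H48.OC.Slab
import Pool.Agent.H41.STK.Q22

/-!
# OC, general linear form: the data, and the telescope

Lines `ω` with a free part `y ω` (in dimension `k`) and a dependent part `c ω` (in dimension `n`);
pairs of times `q` with a linear form `c ↦ v q · c`, `y ↦ x q · y`.
-/

set_option autoImplicit false

namespace Pool.OCG

open Finset Real
open Pool.Agent.H49.Ent Pool.Agent.H32.Dense Pool.STK Pool.KAF Pool.OCT

/-- Lines, pairs of times, labels. `w i ω` is the law of the pairs at the scale `i`, `D q` the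
size of the form `x q` in units `2 ^ (-m)` (a logarithm), `J ω` the rows which are not full. -/
structure Dat (k n : ℕ) (Ω P Λ : Type) where
  p : Ω → ℝ
  w : ℕ → Ω → P → ℝ
  lab : Ω → Λ
  y : Ω → Fin k → ℝ
  c : Ω → Fin n → ℝ
  v : P → Fin n → ℝ
  x : P → Fin k → ℝ
  D : P → ℕ
  m : ℕ
  J : Ω → Finset ℕ

namespace Dat

variable {k n : ℕ} {Ω P Λ : Type} [Fintype Ω] (d : Dat k n Ω P Λ)

/-- Digits of the free part. -/
noncomputable def Y (s : ℕ) (ω : Ω) : Fin k → ℤ := fun j => ⌊(2 : ℝ) ^ s * d.y ω j⌋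

/-- Digits of the dependent part. -/
noncomputable def C (s : ℕ) (ω : Ω) : Fin n → ℤ := fun j => ⌊(2 : ℝ) ^ (d.m + s) * d.c ω j⌋

/-- Cells. -/
noncomputable def G (s : ℕ) (ω : Ω) : (Λ × (Fin k → ℤ)) × (Fin n → ℤ) :=
  ((d.lab ω, d.Y s ω), d.C s ω)

/-- The form of a pair. -/
noncomputable def Z (q : P) (ω : Ω) : ℝ := ∑ j, d.v q j * d.c ω j - ∑ j, d.x q j * d.y ω j

/-- The form of the pair `q` is almost constant, up to `2 ^ (-(m + s + k₁))`, on the cell `r` of
`ω`. -/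
def At (k₁ : ℕ) (e' : ℝ) (s r : ℕ) (q : P) (ω : Ω) : Prop :=
  Pr (cond d.p (d.G r) (d.G r ω))
    {ω' | 1 / (2 : ℝ) ^ (d.m + s + k₁) < |d.Z q ω' - d.Z q ω|} ≤ e'

/-- The forms of the pairs `q 0, …, q (n - 1)` span the dual of the space of the dependent
parts, with constant `B`. -/
def Bd (B : ℝ) (q : Fin n → P) : Prop :=
  ∃ W : Fin n → Fin n → ℝ, (∀ a j, |W a j| ≤ B) ∧
    (∀ a b, ∑ j, W a j * d.v (q j) b = if a = b then 1 else 0) ∧
    (∀ i j, ∑ a, d.v (q i) a * W a j = if i = j then 1 else 0)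

omit [Fintype Ω] in
theorem Y_anti {s s' : ℕ} (h : s ≤ s') {ω ω' : Ω} (hY : d.Y s' ω = d.Y s' ω') :
    d.Y s ω = d.Y s ω' :=
  Pool.STK.Q22.fl_nest h hY

omit [Fintype Ω] in
theorem C_anti {s s' : ℕ} (h : s ≤ s') {ω ω' : Ω} (hC : d.C s' ω = d.C s' ω') :
    d.C s ω = d.C s ω' :=
  Pool.STK.Q22.fl_nest (Nat.add_le_add_left h d.m) hC

omit [Fintype Ω] in
theorem G_anti {s s' : ℕ} (h : s ≤ s') {ω ω' : Ω} (hG : d.G s' ω = d.G s' ω') :
    d.G s ω = d.G s ω' := by
  unfold G at hG ⊢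
  simp only [Prod.mk.injEq] at hG ⊢
  exact ⟨⟨hG.1.1, d.Y_anti h hG.1.2⟩, d.C_anti h hG.2⟩

omit [Fintype Ω] in
/-- Free parts with the same digits are close. -/
theorem y_near {s : ℕ} {ω ω' : Ω} (h : d.Y s ω = d.Y s ω') (j : Fin k) :
    |d.y ω j - d.y ω' j| ≤ 1 / 2 ^ s := by
  have h1 := congrFun h j
  unfold Y at h1
  have e1 := Int.floor_le ((2 : ℝ) ^ s * d.y ω j)
  have e2 := Int.lt_floor_add_one ((2 : ℝ) ^ s * d.y ω j)
  have e3 := Int.floor_le ((2 : ℝ) ^ s * d.y ω' j)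
  have e4 := Int.lt_floor_add_one ((2 : ℝ) ^ s * d.y ω' j)
  rw [h1] at e1 e2
  have hpos : (0 : ℝ) < 2 ^ s := by positivity
  rw [le_div_iff₀ hpos, ← abs_of_pos hpos, ← abs_mul, abs_le]
  constructor <;> nlinarith

omit [Fintype Ω] in
/-- Dependent parts with the same digits are close. -/
theorem c_near {s : ℕ} {ω ω' : Ω} (h : d.C s ω = d.C s ω') (j : Fin n) :
    |d.c ω j - d.c ω' j| ≤ 1 / 2 ^ (d.m + s) := by
  have h1 := congrFun h j
  unfold C at h1
  have e1 := Int.floor_le ((2 : ℝ) ^ (d.m + s) * d.c ω j)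
  have e2 := Int.lt_floor_add_one ((2 : ℝ) ^ (d.m + s) * d.c ω j)
  have e3 := Int.floor_le ((2 : ℝ) ^ (d.m + s) * d.c ω' j)
  have e4 := Int.lt_floor_add_one ((2 : ℝ) ^ (d.m + s) * d.c ω' j)
  rw [h1] at e1 e2
  have hpos : (0 : ℝ) < 2 ^ (d.m + s) := by positivity
  rw [le_div_iff₀ hpos, ← abs_of_pos hpos, ← abs_mul, abs_le]
  constructor <;> nlinarith

/-- The entropy of the next `a` digits of the free part, at the cell of `ω`. -/
noncomputable def h (a s : ℕ) (ω : Ω) : ℝ :=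
  H (cond d.p (d.G s) (d.G s ω)) (d.Y (s + a))

/-- The deficit, in bits. -/
noncomputable def def' (a s : ℕ) (ω : Ω) : ℝ := k * a - d.h a s ω / Real.log 2

/-- Slabs in the cell of `ω`. -/
theorem slab_cell (hp : IsLaw d.p) {a : ℕ} (ha : 1 ≤ a) {s : ℕ} {ω : Ω} (hω : 0 < d.p ω)
    {e : ℝ} (he : d.def' a s ω ≤ e) (ξ : Fin k → ℝ) (hξ : 0 < ‖ξ‖) :
    Pr (cond d.p (d.G s) (d.G s ω))
      {ω' | |∑ j, ξ j * (d.y ω' j - d.y ω j)| < ‖ξ‖ / 2 ^ (s + a)} ≤ (e + k + 3) / a := by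
  have hl2 : 0 < Real.log 2 := Real.log_pos (by norm_num)
  have hq : IsLaw (cond d.p (d.G s) (d.G s ω)) := Pool.KX.AVG.cond_law hp (d.G s) hω
  have h1 := slab hq a ha (σ := 2 ^ s) (by positivity) d.y
    (by
      intro ω₁ ω₂ h1 h2 j
      have e1 := ((cond_pos_iff hp.nonneg _ _ _).1 h1).2
      have e2 := ((cond_pos_iff hp.nonneg _ _ _).1 h2).2
      have e3 : d.G s ω₁ = d.G s ω₂ := e1.trans e2.symm
      unfold G at e3
      simp only [Prod.mk.injEq] at e3
      exact congrFun e3.1.2 j) (d := e)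
    (by
      unfold def' h at he
      have h2 : H (cond d.p (d.G s) (d.G s ω)) (fun ω j => ⌊(2 : ℝ) ^ a * 2 ^ s * d.y ω j⌋) =
          H (cond d.p (d.G s) (d.G s ω)) (d.Y (s + a)) := by
        congr 1
        funext ω' j
        unfold Y
        rw [pow_add, mul_comm ((2 : ℝ) ^ a)]
      rw [h2]
      have h3 : (k : ℝ) * a - e ≤ H (cond d.p (d.G s) (d.G s ω)) (d.Y (s + a)) / Real.log 2 := by
        linarith
      rwa [le_div_iff₀ hl2] at h3)
    ξ (∑ j, ξ j * d.y ω j) hξ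
  refine le_trans (Pool.KAF.Pr_mono hq.nonneg fun ω' _ hmem => ?_) h1
  have hmem' : |∑ j, ξ j * (d.y ω' j - d.y ω j)| < ‖ξ‖ / 2 ^ (s + a) := hmem
  show |∑ j, ξ j * d.y ω' j - ∑ j, ξ j * d.y ω j| < ‖ξ‖ / (2 ^ a * 2 ^ s)
  rw [← Finset.sum_sub_distrib]
  simp only [← mul_sub]
  rw [← pow_add, add_comm a s]
  exact hmem'

theorem Pr_exists_le {Ω ι : Type} [Fintype Ω] [Fintype ι] {q : Ω → ℝ} (hq : ∀ ω, 0 ≤ q ω)
    (E : ι → Set Ω) : Pr q {ω | ∃ j, ω ∈ E j} ≤ ∑ j, Pr q (E j) := by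
  classical
  simp only [Pool.KAF.Pr_eq]
  rw [Finset.sum_comm]
  refine Finset.sum_le_sum fun ω _ => ?_
  by_cases h : ∃ j, ω ∈ E j
  · rw [if_pos (show ω ∈ {ω | ∃ j, ω ∈ E j} from h)]
    obtain ⟨j, hj⟩ := h
    have h1 := Finset.single_le_sum (f := fun j => if ω ∈ E j then q ω else 0)
      (fun j _ => by split_ifs; exacts [hq ω, le_rfl]) (Finset.mem_univ j)
    rwa [if_pos hj] at h1
  · rw [if_neg (show ω ∉ {ω | ∃ j, ω ∈ E j} from h)]
    exact Finset.sum_nonneg fun j _ => by split_ifs; exacts [hq ω, le_rfl]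

omit [Fintype Ω] in
/-- The dependent part is a linear function of the free part, given forms which span. -/
theorem solve {B : ℝ} {q : Fin n → P} {W : Fin n → Fin n → ℝ} (hB : ∀ a j, |W a j| ≤ B)
    (hW : ∀ a b, ∑ j, W a j * d.v (q j) b = if a = b then 1 else 0) {ε : ℝ} (ω ω' : Ω)
    (h : ∀ j, |d.Z (q j) ω' - d.Z (q j) ω| ≤ ε) (a : Fin n) :
    |d.c ω' a - (d.c ω a + ∑ j, W a j * ∑ b, d.x (q j) b * (d.y ω' b - d.y ω b))| ≤
      n * B * ε := by
  have h1 : d.c ω' a - (d.c ω a + ∑ j, W a j * ∑ b, d.x (q j) b * (d.y ω' b - d.y ω b)) =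
      ∑ j, W a j * (d.Z (q j) ω' - d.Z (q j) ω) := by
    have h2 : ∀ j, d.Z (q j) ω' - d.Z (q j) ω =
        ∑ b, d.v (q j) b * (d.c ω' b - d.c ω b) - ∑ b, d.x (q j) b * (d.y ω' b - d.y ω b) := by
      intro j
      unfold Z
      simp only [mul_sub, Finset.sum_sub_distrib]
      ring
    simp only [h2, mul_sub (W a _), Finset.sum_sub_distrib]
    have h3 : ∑ j, W a j * ∑ b, d.v (q j) b * (d.c ω' b - d.c ω b) = d.c ω' a - d.c ω a := by
      simp only [Finset.mul_sum]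
      rw [Finset.sum_comm]
      have h4 : ∀ b, ∑ j, W a j * (d.v (q j) b * (d.c ω' b - d.c ω b)) =
          (if a = b then 1 else 0) * (d.c ω' b - d.c ω b) := by
        intro b
        rw [← hW a b, Finset.sum_mul]
        exact Finset.sum_congr rfl fun j _ => by ring
      simp only [h4]
      simp
    rw [h3]
    ring
  rw [h1]
  refine (Finset.abs_sum_le_sum_abs _ _).trans ?_
  have h2 : ∀ j ∈ (Finset.univ : Finset (Fin n)), |W a j * (d.Z (q j) ω' - d.Z (q j) ω)| ≤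
      B * ε := by
    intro j _
    rw [abs_mul]
    exact mul_le_mul (hB a j) (h j) (abs_nonneg _) ((abs_nonneg _).trans (hB a j))
  refine (Finset.sum_le_sum h2).trans (le_of_eq ?_)
  rw [Finset.sum_const, nsmul_eq_mul, Finset.card_univ, Fintype.card_fin]
  ring

/-- One step of the telescope, at a cell with `n` atomic forms which span. -/
theorem step_good (hp : IsLaw d.p) {B : ℝ} (hB0 : 0 ≤ B) {K k₁ : ℕ} (hK : K ≤ k₁) {e' : ℝ}
    {s : ℕ} {ω : Ω} (hω : 0 < d.p ω) {q : Fin n → P} (hq : d.Bd B q)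
    (hx : ∀ j, ‖d.x (q j)‖ ≤ 2 / 2 ^ d.m) (hat : ∀ j, d.At k₁ e' s s (q j) ω) :
    CH (cond d.p (d.G s) (d.G s ω)) (d.C (s + K)) (d.Y (s + K)) ≤
      n * (Real.log 2 + Real.log (2 * n * B + 4 * n * B * k + 2)) +
        n * (n * e') * (K * Real.log 2) := by
  classical
  obtain ⟨W, hWB, hW, -⟩ := hq
  set p' := cond d.p (d.G s) (d.G s ω) with hp'
  have hl : IsLaw p' := Pool.KX.AVG.cond_law hp (d.G s) hω
  refine (Pool.STK.Q22.CH_pi hl.nonneg (d.Y (s + K)) n (d.C (s + K))).trans ?_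
  have hcell : ∀ ω', 0 < p' ω' → d.G s ω' = d.G s ω := fun ω' h =>
    ((cond_pos_iff hp.nonneg _ _ _).1 h).2
  have hn0 : (0 : ℝ) ≤ n := Nat.cast_nonneg n
  have hk0 : (0 : ℝ) ≤ k := Nat.cast_nonneg k
  have key : ∀ a : Fin n, CH p' (fun ω => d.C (s + K) ω a) (d.Y (s + K)) ≤
      (Real.log 2 + Real.log (2 * n * B + 4 * n * B * k + 2)) + n * e' * (K * Real.log 2) := by
    intro a
    set hf : Unit → Ω → ℝ := fun _ ω' =>
      d.c ω a + ∑ j, W a j * ∑ b, d.x (q j) b * (d.y ω' b - d.y ω b) with hhf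
    have h1 := atom hl K (τ := 2 ^ (d.m + s)) (by positivity) (fun ω' => d.c ω' a)
      (fun _ => ()) (d.Y (s + K))
      (by
        intro ω₁ ω₂ h1 h2 _
        have e1 : d.G s ω₁ = d.G s ω₂ := (hcell _ h1).trans (hcell _ h2).symm
        unfold G at e1
        simp only [Prod.mk.injEq] at e1
        exact congrFun e1.2 a)
      hf (ρ := n * B * (1 / 2 ^ (d.m + s + k₁)))
      (v := n * B * (k * (2 / 2 ^ d.m) * (1 / 2 ^ (s + K))))
      (κ := 2 * n * B + 4 * n * B * k + 2) (by positivity) (by positivity)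
      (by
        have e1 : (2 : ℝ) ^ K * 2 ^ (d.m + s) * (2 * (n * B * (1 / 2 ^ (d.m + s + k₁)) +
            n * B * (k * (2 / 2 ^ d.m) * (1 / 2 ^ (s + K))))) =
            2 * n * B * (2 ^ K / 2 ^ k₁) + 4 * n * B * k := by
          rw [pow_add (2 : ℝ) (d.m + s) k₁, pow_add (2 : ℝ) s K, pow_add (2 : ℝ) d.m s]
          field_simp
          ring
        have e2 : (2 : ℝ) ^ K / 2 ^ k₁ ≤ 1 := by
          rw [div_le_one (by positivity)]
          exact pow_le_pow_right₀ (by norm_num) hK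
        rw [e1]
        have e3 : 2 * n * B * ((2 : ℝ) ^ K / 2 ^ k₁) ≤ 2 * n * B * 1 :=
          mul_le_mul_of_nonneg_left e2 (by positivity)
        linarith)
      (by
        intro ω₁ ω₂ h1 h2 _ hA
        simp only [hhf]
        have e1 : (d.c ω a + ∑ j, W a j * ∑ b, d.x (q j) b * (d.y ω₁ b - d.y ω b)) -
            (d.c ω a + ∑ j, W a j * ∑ b, d.x (q j) b * (d.y ω₂ b - d.y ω b)) =
            ∑ j, W a j * ∑ b, d.x (q j) b * (d.y ω₁ b - d.y ω₂ b) := by
          rw [add_sub_add_left_eq_sub, ← Finset.sum_sub_distrib]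
          refine Finset.sum_congr rfl fun j _ => ?_
          rw [← mul_sub, ← Finset.sum_sub_distrib]
          congr 1
          exact Finset.sum_congr rfl fun b _ => by ring
        rw [e1]
        refine (Finset.abs_sum_le_sum_abs _ _).trans ?_
        have e2 : ∀ j ∈ (Finset.univ : Finset (Fin n)),
            |W a j * ∑ b, d.x (q j) b * (d.y ω₁ b - d.y ω₂ b)| ≤
            B * (k * (2 / 2 ^ d.m) * (1 / 2 ^ (s + K))) := by
          intro j _
          rw [abs_mul]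
          refine mul_le_mul (hWB a j) ?_ (abs_nonneg _) hB0
          refine (Finset.abs_sum_le_sum_abs _ _).trans ?_
          have e3 : ∀ b ∈ (Finset.univ : Finset (Fin k)),
              |d.x (q j) b * (d.y ω₁ b - d.y ω₂ b)| ≤ 2 / 2 ^ d.m * (1 / 2 ^ (s + K)) := by
            intro b _
            rw [abs_mul]
            exact mul_le_mul ((norm_le_pi_norm (d.x (q j)) b).trans (hx j)) (d.y_near hA b)
              (abs_nonneg _) (by positivity)
          refine (Finset.sum_le_sum e3).trans (le_of_eq ?_)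
          rw [Finset.sum_const, nsmul_eq_mul, Finset.card_univ, Fintype.card_fin]
          ring
        refine (Finset.sum_le_sum e2).trans (le_of_eq ?_)
        rw [Finset.sum_const, nsmul_eq_mul, Finset.card_univ, Fintype.card_fin]
        ring)
    have h2 : CH p' (fl (2 ^ K * 2 ^ (d.m + s)) fun ω' => d.c ω' a)
        (fun ω => (d.Y (s + K) ω, ())) = CH p' (fun ω => d.C (s + K) ω a) (d.Y (s + K)) := by
      have e1 : (fl (2 ^ K * 2 ^ (d.m + s)) fun ω' => d.c ω' a) =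
          fun ω => d.C (s + K) ω a := by
        funext ω'
        unfold Pool.OCT.fl C
        rw [← pow_add]
        congr 3
        omega
      rw [e1]
      exact CH_congr hl.nonneg (fun _ _ _ _ h => (Prod.ext_iff.1 h).1)
        (fun _ _ _ _ h => (Prod.ext_iff.1 h).1) (fun _ _ _ _ h => (Prod.ext_iff.1 h).1)
        (fun _ _ _ _ h => Prod.ext h rfl)
    rw [h2] at h1
    refine h1.trans ?_
    have h3 : Pr p' {ω' | n * B * (1 / 2 ^ (d.m + s + k₁)) < |d.c ω' a - hf () ω'|} ≤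
        n * e' := by
      have e1 : Pr p' {ω' | n * B * (1 / 2 ^ (d.m + s + k₁)) < |d.c ω' a - hf () ω'|} ≤
          Pr p' {ω' | ∃ j, ω' ∈ {ω' | 1 / (2 : ℝ) ^ (d.m + s + k₁) <
            |d.Z (q j) ω' - d.Z (q j) ω|}} := by
        refine Pool.KAF.Pr_mono hl.nonneg fun ω' _ hmem => ?_
        by_contra hcon
        have hcon' : ∀ j, |d.Z (q j) ω' - d.Z (q j) ω| ≤ 1 / (2 : ℝ) ^ (d.m + s + k₁) := by
          intro j
          by_contra hj
          exact hcon ⟨j, lt_of_not_ge hj⟩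
        have e2 := d.solve hWB hW ω ω' hcon' a
        exact absurd hmem (not_lt.2 e2)
      refine e1.trans ((Pr_exists_le hl.nonneg _).trans ?_)
      refine (Finset.sum_le_sum fun j _ => hat j).trans (le_of_eq ?_)
      rw [Finset.sum_const, nsmul_eq_mul, Finset.card_univ, Fintype.card_fin]
    have h4 := mul_le_mul_of_nonneg_right h3 (show 0 ≤ (K : ℝ) * Real.log 2 by positivity)
    linarith
  refine (Finset.sum_le_sum fun a _ => key a).trans (le_of_eq ?_)
  rw [Finset.sum_const, nsmul_eq_mul, Finset.card_univ, Fintype.card_fin]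
  ring

/-- The trivial bound for one step. -/
theorem step_triv (hp : IsLaw d.p) (K s : ℕ) {ω : Ω} (hω : 0 < d.p ω) :
    CH (cond d.p (d.G s) (d.G s ω)) (d.C (s + K)) (d.Y (s + K)) ≤ n * (K * Real.log 2) := by
  classical
  have hl : IsLaw (cond d.p (d.G s) (d.G s ω)) := Pool.KX.AVG.cond_law hp (d.G s) hω
  refine (Pool.STK.Q22.CH_pi hl.nonneg (d.Y (s + K)) n (d.C (s + K))).trans ?_
  have key : ∀ a : Fin n, CH (cond d.p (d.G s) (d.G s ω)) (fun ω => d.C (s + K) ω a)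
      (d.Y (s + K)) ≤ K * Real.log 2 := by
    intro a
    have h1 := ch_fl_le hl K (2 ^ (d.m + s)) (fun ω' => d.c ω' a) (fun _ => ()) (by
      intro ω₁ ω₂ h1 h2 _
      have e1 : d.G s ω₁ = d.G s ω₂ := (((cond_pos_iff hp.nonneg _ _ _).1 h1).2).trans
        (((cond_pos_iff hp.nonneg _ _ _).1 h2).2).symm
      unfold G at e1
      simp only [Prod.mk.injEq] at e1
      exact congrFun e1.2 a)
    have e1 : (fl (2 ^ K * 2 ^ (d.m + s)) fun ω' => d.c ω' a) = fun ω => d.C (s + K) ω a := by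
      funext ω'
      unfold Pool.OCT.fl C
      rw [← pow_add]
      congr 3
      omega
    rw [e1] at h1
    refine le_trans (CH_mono_cond hl.nonneg fun _ _ _ _ _ => rfl) h1
  refine (Finset.sum_le_sum fun a _ => key a).trans (le_of_eq ?_)
  rw [Finset.sum_const, nsmul_eq_mul, Finset.card_univ, Fintype.card_fin]

end Dat

end Pool.OCG
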