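import Pool.Agent.H70.OC.Tel

/-!
# OC, general linear form: slabs

A vector whose next digits have almost full entropy is in no slab with large probability.
-/

set_option autoImplicit false

namespace Pool.OCG

open Finset Real
open Pool.Agent.H49.Ent Pool.Agent.H32.Dense Pool.STK Pool.KAF Pool.OCT

variable {Ω : Type} [Fintype Ω] {S T : Type}

theorem H_eq_CH_unit {q : Ω → ℝ} (hq : IsLaw q) (X : Ω → S) :
    H q X = CH q X (fun _ => ()) := by
  unfold CH
  rw [H_const hq.sum_one, sub_zero]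
  exact H_congr hq.nonneg (fun _ _ _ _ h => (Prod.ext_iff.1 h).1)
    (fun _ _ _ _ h => Prod.ext h rfl)

/-- Entropy of a variable which is often in a small set. -/
theorem H_mix {q : Ω → ℝ} (hq : IsLaw q) (X : Ω → S) (N F : Finset S) {κ L : ℝ} (hκ : 1 ≤ κ)
    (hL : 1 ≤ L) (hN : (N.card : ℝ) ≤ κ) (hF : (F.card : ℝ) ≤ L)
    (hX : ∀ ω, 0 < q ω → X ω ∈ F) :
    H q X ≤ Real.log 2 + Real.log L - Pr q {ω | X ω ∈ N} * (Real.log L - Real.log κ) := by
  classical
  rw [H_eq_CH_unit hq]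
  have h := CH_le_cross hq.nonneg hq.sum_one X (fun _ => ())
    (fun _ x => (if x ∈ N then (2 * κ)⁻¹ else 0) + (if x ∈ F then (2 * L)⁻¹ else 0))
    (by
      intro ω hω
      rw [if_pos (hX ω hω)]
      have : 0 < (2 * L)⁻¹ := by positivity
      split_ifs <;> positivity)
    (by intro w x; split_ifs <;> positivity)
    (by
      intro ω _ G
      rw [Finset.sum_add_distrib, ← Finset.sum_filter, ← Finset.sum_filter, Finset.sum_const,
        Finset.sum_const, nsmul_eq_mul, nsmul_eq_mul]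
      have h1 : (((G.filter fun x => x ∈ N).card : ℕ) : ℝ) ≤ κ := by
        refine le_trans ?_ hN
        exact_mod_cast Finset.card_le_card fun x hx => (Finset.mem_filter.mp hx).2
      have h2 : (((G.filter fun x => x ∈ F).card : ℕ) : ℝ) ≤ L := by
        refine le_trans ?_ hF
        exact_mod_cast Finset.card_le_card fun x hx => (Finset.mem_filter.mp hx).2
      have h3 := mul_le_mul_of_nonneg_right h1 (show 0 ≤ (2 * κ)⁻¹ by positivity)
      have h4 := mul_le_mul_of_nonneg_right h2 (show 0 ≤ (2 * L)⁻¹ by positivity)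
      have h5 : κ * (2 * κ)⁻¹ = 1 / 2 := by field_simp
      have h6 : L * (2 * L)⁻¹ = 1 / 2 := by field_simp
      linarith)
  refine h.trans ?_
  have hpt : Ex q (fun ω => -Real.log ((if X ω ∈ N then (2 * κ)⁻¹ else 0) +
      (if X ω ∈ F then (2 * L)⁻¹ else 0))) ≤
      Ex q (fun ω => (Real.log 2 + Real.log L) +
        (if ω ∈ {ω | X ω ∈ N} then (Real.log κ - Real.log L) else 0)) := by
    refine Ex_mono hq.nonneg fun ω hω => ?_
    rw [if_pos (hX ω hω)]
    by_cases h1 : X ω ∈ N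
    · have h2 : ω ∈ {ω | X ω ∈ N} := h1
      rw [if_pos h1, if_pos h2]
      have h3 : (2 * κ)⁻¹ ≤ (2 * κ)⁻¹ + (2 * L)⁻¹ := by
        have : 0 < (2 * L)⁻¹ := by positivity
        linarith
      have h4 := Real.log_le_log (by positivity) h3
      rw [Real.log_inv, Real.log_mul (by norm_num) (by positivity)] at h4
      linarith
    · have h2 : ω ∉ {ω | X ω ∈ N} := h1
      rw [if_neg h1, if_neg h2, zero_add, Real.log_inv, neg_neg,
        Real.log_mul (by norm_num) (by positivity)]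
      linarith
  refine hpt.trans (le_of_eq ?_)
  rw [Ex_add, Ex_const hq.sum_one, Pool.KAF.Pr_eq]
  have : Ex q (fun ω => if ω ∈ {ω | X ω ∈ N} then (Real.log κ - Real.log L) else 0) =
      (∑ ω, if ω ∈ {ω | X ω ∈ N} then q ω else 0) * (Real.log κ - Real.log L) := by
    unfold Ex
    rw [Finset.sum_mul]
    refine Finset.sum_congr rfl fun ω _ => ?_
    by_cases h1 : ω ∈ {ω | X ω ∈ N}
    · simp only [if_pos h1]
    · simp only [if_neg h1]
      ring
  rw [this]
  ring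

open Classical in
/-- The number of cells which meet a slab. -/
theorem card_slab {k : ℕ} (a : ℕ) (g : Fin k → ℤ) (ξ : Fin k → ℝ) (o : ℝ) (hξ : 0 < ‖ξ‖) :
    ((((Fintype.piFinset fun j => Finset.Ico (2 ^ a * g j) (2 ^ a * (g j + 1))).filter
      fun z => |∑ j, ξ j * (z j : ℝ) - o| < (k + 1) * ‖ξ‖).card : ℕ) : ℝ) ≤
      (2 * k + 3) * ((2 : ℝ) ^ a) ^ (k - 1) := by
  rcases k with _ | k
  · exfalso
    have : ‖ξ‖ = 0 := by
      rw [Subsingleton.elim ξ 0, norm_zero]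
    linarith
  obtain ⟨j₀, hj₀⟩ : ∃ j₀, ‖ξ j₀‖ = ‖ξ‖ := by
    obtain ⟨j, -, hj⟩ := Finset.exists_max_image (Finset.univ : Finset (Fin (k + 1)))
      (fun j => ‖ξ j‖) Finset.univ_nonempty
    refine ⟨j, le_antisymm (norm_le_pi_norm ξ j) ?_⟩
    rw [pi_norm_le_iff_of_nonneg (norm_nonneg _)]
    intro i
    exact hj i (Finset.mem_univ i)
  rw [Real.norm_eq_abs] at hj₀
  have hξ0 : 0 < |ξ j₀| := by rw [hj₀]; exact hξ
  set A := ((Fintype.piFinset fun j => Finset.Ico (2 ^ a * g j) (2 ^ a * (g j + 1))).filter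
      fun z => |∑ j, ξ j * (z j : ℝ) - o| < ((k + 1 : ℕ) + 1) * ‖ξ‖) with hA
  set f : (Fin (k + 1) → ℤ) → ({j // j ≠ j₀} → ℤ) := fun z j => z j with hf
  have h1 := Finset.card_le_mul_card_image (f := f) A (2 * (k + 1) + 3) (by
    intro b _
    set c : ℝ := (o - ∑ j ∈ (Finset.univ.erase j₀), ξ j *
      (if hj : j ≠ j₀ then ((b ⟨j, hj⟩ : ℤ) : ℝ) else 0)) / ξ j₀ with hc
    have hsub : (A.filter fun z => f z = b).card ≤
        (Finset.Icc ⌈c - (k + 2)⌉ ⌊c + (k + 2)⌋).card := by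
      refine Finset.card_le_card_of_injOn (fun z => z j₀) ?_ ?_
      · intro z hz
        rw [Finset.mem_coe, Finset.mem_filter] at hz
        have hz1 := (Finset.mem_filter.1 hz.1).2
        have hsum : ∑ j, ξ j * (z j : ℝ) = ξ j₀ * z j₀ + ∑ j ∈ (Finset.univ.erase j₀), ξ j *
            (if hj : j ≠ j₀ then ((b ⟨j, hj⟩ : ℤ) : ℝ) else 0) := by
          rw [← Finset.add_sum_erase _ _ (Finset.mem_univ j₀)]
          congr 1
          refine Finset.sum_congr rfl fun j hj => ?_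
          have hj' : j ≠ j₀ := (Finset.mem_erase.1 hj).1
          rw [dif_pos hj']
          have := congrFun hz.2 ⟨j, hj'⟩
          simp only [hf] at this
          rw [← this]
        have h2 : |ξ j₀| * |(z j₀ : ℝ) - c| < (k + 2) * |ξ j₀| := by
          rw [← abs_mul, mul_sub, hc, mul_div_cancel₀ _ (abs_pos.1 hξ0)]
          rw [hsum] at hz1
          rw [hj₀]
          push_cast at hz1
          calc _ = |ξ j₀ * ↑(z j₀) + ∑ j ∈ (Finset.univ.erase j₀), ξ j *
                (if hj : j ≠ j₀ then ((b ⟨j, hj⟩ : ℤ) : ℝ) else 0) - o| := by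
                congr 1; ring
            _ < _ := by linarith
        have h3 : |(z j₀ : ℝ) - c| < k + 2 := by
          rw [mul_comm] at h2
          exact lt_of_mul_lt_mul_right h2 hξ0.le
        have h4 := abs_lt.1 h3
        rw [Finset.mem_coe, Finset.mem_Icc, Int.ceil_le, Int.le_floor]
        constructor <;> linarith
      · intro z hz z' hz' h
        rw [Finset.mem_coe, Finset.mem_filter] at hz hz'
        funext j
        by_cases hj : j = j₀
        · rw [hj]; exact h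
        · have e1 := congrFun hz.2 ⟨j, hj⟩
          have e2 := congrFun hz'.2 ⟨j, hj⟩
          simp only [hf] at e1 e2
          rw [e1, e2]
    refine hsub.trans ?_
    rw [Int.card_Icc]
    have h5 := Int.floor_le (c + (k + 2))
    have h6 := Int.le_ceil (c - (k + 2))
    have h7 : ((⌊c + (k + 2)⌋ : ℤ) : ℝ) - ((⌈c - (k + 2)⌉ : ℤ) : ℝ) ≤ 2 * (k + 2) := by linarith
    have h8 : (⌊c + (k + 2)⌋ : ℤ) - (⌈c - (k + 2)⌉ : ℤ) ≤ 2 * (k + 2) := by exact_mod_cast h7
    omega)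
  have h2 : (A.image f).card ≤ (2 ^ a) ^ k := by
    have h3 : A.image f ⊆ Fintype.piFinset fun j : {j // j ≠ j₀} =>
        Finset.Ico (2 ^ a * g j) (2 ^ a * (g j + 1)) := by
      intro b hb
      obtain ⟨z, hz, rfl⟩ := Finset.mem_image.1 hb
      rw [Fintype.mem_piFinset]
      intro j
      exact Fintype.mem_piFinset.1 (Finset.mem_filter.1 hz).1 j
    refine (Finset.card_le_card h3).trans ?_
    rw [Fintype.card_piFinset]
    have h4 : ∀ j : {j // j ≠ j₀}, (Finset.Ico (2 ^ a * g j) (2 ^ a * (g j + 1))).card = 2 ^ a := by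
      intro j
      rw [Int.card_Ico]
      have e1 : (2 ^ a * (g j + 1) - 2 ^ a * g j : ℤ) = ((2 ^ a : ℕ) : ℤ) := by push_cast; ring
      rw [e1, Int.toNat_natCast]
    rw [Finset.prod_congr rfl fun j _ => h4 j, Finset.prod_const, Finset.card_univ]
    have h5 : Fintype.card {j // j ≠ j₀} = k := by
      rw [Fintype.card_subtype_compl, Fintype.card_fin, Fintype.card_subtype_eq]
      rfl
    rw [h5]
  have h3 : A.card ≤ (2 * (k + 1) + 3) * (2 ^ a) ^ k := h1.trans (Nat.mul_le_mul_left _ h2)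
  have h4 : ((A.card : ℕ) : ℝ) ≤ (((2 * (k + 1) + 3) * (2 ^ a) ^ k : ℕ) : ℝ) := by exact_mod_cast h3
  refine h4.trans (le_of_eq ?_)
  simp

/-- **Slabs.** -/
theorem slab {k : ℕ} {q : Ω → ℝ} (hq : IsLaw q) (a : ℕ) (ha : 1 ≤ a) {σ : ℝ} (hσ : 0 < σ)
    (y : Ω → Fin k → ℝ)
    (hc : ∀ ω ω', 0 < q ω → 0 < q ω' → ∀ j, ⌊σ * y ω j⌋ = ⌊σ * y ω' j⌋) {d : ℝ}
    (hd : (k * a - d) * Real.log 2 ≤ H q (fun ω j => ⌊2 ^ a * σ * y ω j⌋)) (ξ : Fin k → ℝ)
    (o : ℝ) (hξ : 0 < ‖ξ‖) :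
    Pr q {ω | |∑ j, ξ j * y ω j - o| < ‖ξ‖ / (2 ^ a * σ)} ≤ (d + k + 3) / a := by
  classical
  have hl2 : 0 < Real.log 2 := Real.log_pos (by norm_num)
  have ha0 : (0 : ℝ) < a := by exact_mod_cast ha
  have hk : 1 ≤ k := by
    rcases k with _ | k
    · exfalso
      have : ‖ξ‖ = 0 := by rw [Subsingleton.elim ξ 0, norm_zero]
      linarith
    · omega
  obtain ⟨ω₀, hω₀⟩ : ∃ ω, 0 < q ω := by
    by_contra hcon
    push Not at hcon
    have h1 : ∑ ω, q ω ≤ 0 := Finset.sum_nonpos fun ω _ => hcon ω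
    rw [hq.sum_one] at h1
    linarith
  set g : Fin k → ℤ := fun j => ⌊σ * y ω₀ j⌋ with hg
  set F := Fintype.piFinset fun j => Finset.Ico (2 ^ a * g j) (2 ^ a * (g j + 1)) with hF
  set N := F.filter fun z => |∑ j, ξ j * (z j : ℝ) - 2 ^ a * σ * o| < (k + 1) * ‖ξ‖ with hN
  have hXF : ∀ ω, 0 < q ω → (fun j => ⌊2 ^ a * σ * y ω j⌋) ∈ F := by
    intro ω hω
    rw [hF, Fintype.mem_piFinset]
    intro j
    rw [Finset.mem_Ico]
    have h1 : g j = ⌊σ * y ω j⌋ := hc ω₀ ω hω₀ hω j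
    rw [h1]
    exact fl_two_pow a σ (fun ω => y ω j) ω
  have hFc : ((F.card : ℕ) : ℝ) = ((2 : ℝ) ^ a) ^ k := by
    rw [hF, Fintype.card_piFinset]
    have h4 : ∀ j : Fin k, (Finset.Ico (2 ^ a * g j) (2 ^ a * (g j + 1))).card = 2 ^ a := by
      intro j
      rw [Int.card_Ico]
      have e1 : (2 ^ a * (g j + 1) - 2 ^ a * g j : ℤ) = ((2 ^ a : ℕ) : ℤ) := by push_cast; ring
      rw [e1, Int.toNat_natCast]
    rw [Finset.prod_congr rfl fun j _ => h4 j, Finset.prod_const, Finset.card_univ,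
      Fintype.card_fin]
    push_cast
    rfl
  have hpow1 : (1 : ℝ) ≤ (2 : ℝ) ^ a := one_le_pow₀ (by norm_num)
  have h1 := H_mix hq (fun ω j => ⌊2 ^ a * σ * y ω j⌋) N F
    (κ := (2 * k + 3) * ((2 : ℝ) ^ a) ^ (k - 1)) (L := ((2 : ℝ) ^ a) ^ k)
    (by
      have : (1 : ℝ) ≤ ((2 : ℝ) ^ a) ^ (k - 1) := one_le_pow₀ hpow1
      have hk0 : (0 : ℝ) ≤ k := Nat.cast_nonneg k
      nlinarith)
    (one_le_pow₀ hpow1) (card_slab a g ξ _ hξ) hFc.le hXF
  set P := Pr q {ω | (fun j => ⌊2 ^ a * σ * y ω j⌋) ∈ N} with hP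
  have h2 : Pr q {ω | |∑ j, ξ j * y ω j - o| < ‖ξ‖ / (2 ^ a * σ)} ≤ P := by
    refine Pool.KAF.Pr_mono hq.nonneg fun ω hω hmem => ?_
    show _ ∈ N
    rw [hN, Finset.mem_filter]
    refine ⟨hXF ω hω, ?_⟩
    have hmem' : |∑ j, ξ j * y ω j - o| < ‖ξ‖ / (2 ^ a * σ) := hmem
    have hpos : 0 < 2 ^ a * σ := by positivity
    rw [lt_div_iff₀ hpos] at hmem'
    have h3 : |∑ j, ξ j * ((⌊2 ^ a * σ * y ω j⌋ : ℤ) : ℝ) - ∑ j, ξ j * (2 ^ a * σ * y ω j)| ≤
        k * ‖ξ‖ := by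
      rw [← Finset.sum_sub_distrib]
      refine (Finset.abs_sum_le_sum_abs _ _).trans ?_
      have h4 : ∀ j ∈ (Finset.univ : Finset (Fin k)),
          |ξ j * ((⌊2 ^ a * σ * y ω j⌋ : ℤ) : ℝ) - ξ j * (2 ^ a * σ * y ω j)| ≤ ‖ξ‖ := by
        intro j _
        rw [← mul_sub, abs_mul]
        have e1 : |ξ j| ≤ ‖ξ‖ := norm_le_pi_norm ξ j
        have e2 := Int.floor_le (2 ^ a * σ * y ω j)
        have e3 := Int.lt_floor_add_one (2 ^ a * σ * y ω j)
        have e4 : |((⌊2 ^ a * σ * y ω j⌋ : ℤ) : ℝ) - 2 ^ a * σ * y ω j| ≤ 1 := by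
          rw [abs_le]; constructor <;> linarith
        calc _ ≤ ‖ξ‖ * 1 := mul_le_mul e1 e4 (abs_nonneg _) (norm_nonneg _)
          _ = _ := mul_one _
      refine (Finset.sum_le_sum h4).trans ?_
      rw [Finset.sum_const, nsmul_eq_mul, Finset.card_univ, Fintype.card_fin]
    have h4 : ∑ j, ξ j * (2 ^ a * σ * y ω j) = 2 ^ a * σ * ∑ j, ξ j * y ω j := by
      rw [Finset.mul_sum]
      exact Finset.sum_congr rfl fun j _ => by ring
    have h5 : |2 ^ a * σ * ∑ j, ξ j * y ω j - 2 ^ a * σ * o| < ‖ξ‖ := by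
      rw [← mul_sub, abs_mul, abs_of_pos hpos]
      linarith
    rw [h4] at h3
    have h6 := abs_le.1 h3
    have h7 := abs_lt.1 h5
    rw [abs_lt]
    constructor <;> nlinarith
  have hlk : Real.log (2 * k + 3) ≤ (k + 2) * Real.log 2 := by
    rw [← Nat.cast_two (R := ℝ), ← Nat.cast_add, ← Real.log_pow]
    refine Real.log_le_log (by positivity) ?_
    have : ∀ j : ℕ, 2 * j + 3 ≤ 2 ^ (j + 2) := by
      intro j
      induction j with
      | zero => norm_num
      | succ j ih => rw [show j + 1 + 2 = (j + 2) + 1 by ring, pow_succ]; omega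
    exact_mod_cast this k
  have hlogκ : Real.log ((2 * k + 3) * ((2 : ℝ) ^ a) ^ (k - 1)) =
      Real.log (2 * k + 3) + (k - 1) * (a * Real.log 2) := by
    rw [Real.log_mul (by positivity) (by positivity), Real.log_pow, Real.log_pow, Nat.cast_sub hk]
    push_cast
    ring
  have hlogL : Real.log (((2 : ℝ) ^ a) ^ k) = k * (a * Real.log 2) := by
    rw [Real.log_pow, Real.log_pow]
  rw [hlogκ, hlogL] at h1
  have hP0 : 0 ≤ P := Pool.KAF.Pr_nonneg hq.nonneg _
  have hP1 : P ≤ 1 := Pool.KAF.Pr_le_one hq _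
  have h3 : (k * a - d) * Real.log 2 ≤ Real.log 2 + k * (a * Real.log 2) -
      P * (k * (a * Real.log 2) - (Real.log (2 * k + 3) + (k - 1) * (a * Real.log 2))) :=
    hd.trans h1
  have h4 : P * (a * Real.log 2) ≤ (d + k + 3) * Real.log 2 := by
    have h5 : P * Real.log (2 * k + 3) ≤ (k + 2) * Real.log 2 := by
      have h6 : 0 ≤ Real.log (2 * k + 3) := Real.log_nonneg (by
        have : (0 : ℝ) ≤ k := Nat.cast_nonneg k
        linarith)
      calc P * Real.log (2 * k + 3) ≤ 1 * Real.log (2 * k + 3) :=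
            mul_le_mul_of_nonneg_right hP1 h6
        _ ≤ _ := by rw [one_mul]; exact hlk
    nlinarith
  have h5 : P * a ≤ d + k + 3 := by
    have : (P * a) * Real.log 2 ≤ (d + k + 3) * Real.log 2 := by linarith
    exact le_of_mul_le_mul_right this hl2
  refine h2.trans ?_
  rw [le_div_iff₀ ha0]
  exact h5

end Pool.OCG
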